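import Pool.Agent.MP_6b3e96_gt.H77.Spec2

/-!
Pull-back of the solution by the squaring map.
-/

open scoped ContDiff Topology RealInnerProductSpace MeasureTheory Real
open Set Filter Metric MeasureTheory Complex

noncomputable section

namespace Pool.Agent.MP_6b3e96_gt.H6

open Pool.Agent.MP_6b3e96_gt.H77

/-- Directional derivative. -/
def dv (v : ℂ) (f : ℂ → ℝ) (z : ℂ) : ℝ := fderiv ℝ f z v

theorem lap_eq (f : ℂ → ℝ) (z : ℂ) : lap f z = dv 1 (dv 1 f) z + dv I (dv I f) z := rfl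

theorem dv_congr {f g : ℂ → ℝ} {z : ℂ} (h : f =ᶠ[𝓝 z] g) (v : ℂ) : dv v f =ᶠ[𝓝 z] dv v g := by
  filter_upwards [h.fderiv (𝕜 := ℝ)] with y hy
  simp only [dv, hy]

theorem lap_congr {f g : ℂ → ℝ} {z : ℂ} (h : f =ᶠ[𝓝 z] g) : lap f z = lap g z := by
  rw [lap_eq, lap_eq, (dv_congr (dv_congr h 1) 1).eq_of_nhds,
    (dv_congr (dv_congr h I) I).eq_of_nhds]

theorem dv_diff {f : ℂ → ℝ} {z : ℂ} (hf : ContDiffAt ℝ 2 f z) (v : ℂ) :
    DifferentiableAt ℝ (dv v f) z := by
  have h1 : ContDiffAt ℝ 1 (fderiv ℝ f) z := hf.fderiv_right (by norm_num)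
  exact (h1.clm_apply contDiffAt_const).differentiableAt (by norm_num)

theorem ev_diff {f : ℂ → ℝ} {z : ℂ} (hf : ContDiffAt ℝ 2 f z) :
    ∀ᶠ y in 𝓝 z, DifferentiableAt ℝ f y := by
  filter_upwards [hf.eventually (by norm_num)] with y hy
  exact hy.differentiableAt (by norm_num)

theorem lap_add {f g : ℂ → ℝ} {z : ℂ} (hf : ContDiffAt ℝ 2 f z) (hg : ContDiffAt ℝ 2 g z) :
    lap (fun y => f y + g y) z = lap f z + lap g z := by
  have k : ∀ v, dv v (dv v fun y => f y + g y) z = dv v (dv v f) z + dv v (dv v g) z := by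
    intro v
    have e : dv v (fun y => f y + g y) =ᶠ[𝓝 z] fun y => dv v f y + dv v g y := by
      filter_upwards [ev_diff hf, ev_diff hg] with y h1 h2
      simp only [dv]
      rw [fderiv_fun_add h1 h2]
      rfl
    rw [(dv_congr e v).eq_of_nhds]
    change fderiv ℝ (fun y => dv v f y + dv v g y) z v = _
    rw [fderiv_fun_add (dv_diff hf v) (dv_diff hg v)]
    rfl
  rw [lap_eq, lap_eq, lap_eq, k, k]
  ring

theorem fd_split (A : ℂ →L[ℝ] ℝ) (a : ℂ) : A a = a.re * A 1 + a.im * A I := by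
  conv_lhs => rw [show a = a.re • (1 : ℂ) + a.im • I by simp]
  rw [map_add, map_smul, map_smul, smul_eq_mul, smul_eq_mul]

theorem hasF_sq (y : ℂ) :
    HasFDerivAt (fun y : ℂ => y ^ 2) ((ContinuousLinearMap.mul ℝ ℂ) (2 * y)) y := by
  have h := (hasDerivAt_pow 2 y).hasFDerivAt.restrictScalars ℝ
  refine h.congr_fderiv ?_
  ext <;> simp [mul_comm]

theorem dv_sq {f : ℂ → ℝ} {y : ℂ} (hf : DifferentiableAt ℝ f (y ^ 2)) (v : ℂ) :
    dv v (fun y => f (y ^ 2)) y =
      (2 * y * v).re * dv 1 f (y ^ 2) + (2 * y * v).im * dv I f (y ^ 2) := by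
  have h := hf.hasFDerivAt.comp y (hasF_sq y)
  have : fderiv ℝ (fun y => f (y ^ 2)) y = _ := h.fderiv
  simp only [dv]
  rw [this, ContinuousLinearMap.comp_apply, ContinuousLinearMap.mul_apply', fd_split]

theorem lap_sq {f : ℂ → ℝ} {z : ℂ} (hf : ContDiffAt ℝ 2 f (z ^ 2)) :
    lap (fun y => f (y ^ 2)) z = 4 * ‖z‖ ^ 2 * lap f (z ^ 2) := by
  have k : ∀ v, dv v (dv v fun y => f (y ^ 2)) z =
      (2 * v * v).re * dv 1 f (z ^ 2) + (2 * z * v).re * dv v (fun y => dv 1 f (y ^ 2)) z +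
      ((2 * v * v).im * dv I f (z ^ 2) + (2 * z * v).im * dv v (fun y => dv I f (y ^ 2)) z) := by
    intro v
    have e : dv v (fun y => f (y ^ 2)) =ᶠ[𝓝 z] fun y =>
        (2 * y * v).re * dv 1 f (y ^ 2) + (2 * y * v).im * dv I f (y ^ 2) := by
      filter_upwards [(continuous_pow 2).continuousAt.tendsto.eventually (ev_diff hf)] with y hy
      exact dv_sq hy v
    rw [(dv_congr e v).eq_of_nhds]
    have l : HasFDerivAt (fun y : ℂ => 2 * y * v) ((ContinuousLinearMap.mul ℝ ℂ) (2 * v)) z := by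
      refine (((ContinuousLinearMap.mul ℝ ℂ) (2 * v)).hasFDerivAt (x := z)).congr_of_eventuallyEq
        (Eventually.of_forall fun y => ?_)
      simp only [ContinuousLinearMap.mul_apply']
      ring
    have l1 := reCLM.hasFDerivAt.comp z l
    have l2 := imCLM.hasFDerivAt.comp z l
    have m1 := ((dv_diff hf 1).comp z (hasF_sq z).differentiableAt).hasFDerivAt
    have m2 := ((dv_diff hf I).comp z (hasF_sq z).differentiableAt).hasFDerivAt
    have := ((l1.mul m1).add (l2.mul m2)).fderiv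
    change fderiv ℝ (fun y => (2 * y * v).re * dv 1 f (y ^ 2) + (2 * y * v).im * dv I f (y ^ 2))
      z = _ at this
    change fderiv ℝ (fun y => (2 * y * v).re * dv 1 f (y ^ 2) + (2 * y * v).im * dv I f (y ^ 2))
      z v = _
    rw [this]
    simp only [add_apply, smul_apply, smul_eq_mul,
      ContinuousLinearMap.comp_apply, ContinuousLinearMap.mul_apply', Function.comp_def,
      reCLM_apply, imCLM_apply, dv]
    ring
  rw [lap_eq, lap_eq, k, k, dv_sq (dv_diff hf 1), dv_sq (dv_diff hf 1), dv_sq (dv_diff hf I),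
    dv_sq (dv_diff hf I), Complex.sq_norm, normSq_apply]
  simp only [mul_re, mul_im, re_ofNat, im_ofNat, one_re, one_im, I_re, I_im]
  ring

theorem dv_log {y : ℂ} (hy : y ≠ 0) (v : ℂ) :
    dv v (fun y : ℂ => Real.log (y.re ^ 2 + y.im ^ 2) / 2) y =
      (y.re * v.re + y.im * v.im) / (y.re ^ 2 + y.im ^ 2) := by
  have h0 : y.re ^ 2 + y.im ^ 2 ≠ 0 := by
    have := normSq_pos.mpr hy
    rw [normSq_apply] at this
    nlinarith
  have h := ((((reCLM.hasFDerivAt (x := y)).pow 2).add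
    ((imCLM.hasFDerivAt (x := y)).pow 2)).log h0).mul_const (1 / 2 : ℝ)
  have e : (fun y : ℂ => Real.log (y.re ^ 2 + y.im ^ 2) / 2) =
      fun y : ℂ => Real.log (reCLM y ^ 2 + imCLM y ^ 2) * (1 / 2) := by
    funext y
    simp only [reCLM_apply, imCLM_apply]
    ring
  have := h.fderiv
  simp only [dv]
  rw [e]
  change fderiv ℝ (fun y : ℂ => Real.log (reCLM y ^ 2 + imCLM y ^ 2) * (1 / 2)) y = _ at this
  rw [this]
  simp
  field_simp

theorem lap_log0 {z : ℂ} (hz : z ≠ 0) :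
    lap (fun y : ℂ => Real.log (y.re ^ 2 + y.im ^ 2) / 2) z = 0 := by
  have h0 : z.re ^ 2 + z.im ^ 2 ≠ 0 := by
    have := normSq_pos.mpr hz
    rw [normSq_apply] at this
    nlinarith
  have k : ∀ v, dv v (dv v fun y : ℂ => Real.log (y.re ^ 2 + y.im ^ 2) / 2) z =
      (v.re ^ 2 + v.im ^ 2) / (z.re ^ 2 + z.im ^ 2) -
        2 * (z.re * v.re + z.im * v.im) ^ 2 / (z.re ^ 2 + z.im ^ 2) ^ 2 := by
    intro v
    have e : dv v (fun y : ℂ => Real.log (y.re ^ 2 + y.im ^ 2) / 2) =ᶠ[𝓝 z] fun y =>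
        (reCLM y * v.re + imCLM y * v.im) * (reCLM y ^ 2 + imCLM y ^ 2)⁻¹ := by
      filter_upwards [isOpen_ne.mem_nhds hz] with y hy
      rw [dv_log hy v, div_eq_mul_inv]
      rfl
    rw [(dv_congr e v).eq_of_nhds]
    have a1 := ((reCLM.hasFDerivAt (x := z)).mul_const v.re).add
      ((imCLM.hasFDerivAt (x := z)).mul_const v.im)
    have a2 := ((reCLM.hasFDerivAt (x := z)).pow 2).add ((imCLM.hasFDerivAt (x := z)).pow 2)
    have a3 := (hasFDerivAt_inv (𝕜 := ℝ) h0).comp z a2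
    have := (a1.mul a3).fderiv
    change fderiv ℝ (fun y : ℂ => (reCLM y * v.re + imCLM y * v.im) *
      (reCLM y ^ 2 + imCLM y ^ 2)⁻¹) z = _ at this
    simp only [dv]
    rw [this]
    simp
    field_simp
    ring
  rw [lap_eq, k, k]
  simp only [one_re, one_im, I_re, I_im]
  field_simp
  ring

theorem log_eq {c : ℝ} (hc : 0 < c) {y : ℂ} (hy : y ≠ 0) :
    Real.log (c * ‖y‖) = Real.log (y.re ^ 2 + y.im ^ 2) / 2 + Real.log c := by
  have : y.re ^ 2 + y.im ^ 2 = ‖y‖ ^ 2 := by rw [Complex.sq_norm, normSq_apply]; ring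
  rw [this, Real.log_pow, Real.log_mul hc.ne' (norm_ne_zero_iff.mpr hy)]
  push_cast
  ring

theorem cd_log {c : ℝ} (hc : 0 < c) {z : ℂ} (hz : z ≠ 0) {n : WithTop ℕ∞} :
    ContDiffAt ℝ n (fun y : ℂ => Real.log (c * ‖y‖)) z :=
  (contDiffAt_const.mul (contDiffAt_norm ℝ hz)).log (mul_pos hc (norm_pos_iff.mpr hz)).ne'

theorem lap_log {c : ℝ} (hc : 0 < c) {z : ℂ} (hz : z ≠ 0) :
    lap (fun y : ℂ => Real.log (c * ‖y‖)) z = 0 := by
  have e : (fun y : ℂ => Real.log (c * ‖y‖)) =ᶠ[𝓝 z]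
      fun y => Real.log (y.re ^ 2 + y.im ^ 2) / 2 + Real.log c := by
    filter_upwards [isOpen_ne.mem_nhds hz] with y hy
    exact log_eq hc hy
  rw [lap_congr e, ← lap_log0 hz, lap_eq, lap_eq]
  have k : ∀ v, dv v (fun y : ℂ => Real.log (y.re ^ 2 + y.im ^ 2) / 2 + Real.log c) =
      dv v fun y : ℂ => Real.log (y.re ^ 2 + y.im ^ 2) / 2 := by
    intro v
    funext y
    simp only [dv, fderiv_add_const]
  rw [k, k]

theorem isOpen_box (a b : ℝ) : IsOpen (box a b) := isOpen_Ioo.reProdIm isOpen_Ioo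

theorem isOpen_Dz : IsOpen Dz := (isOpen_box _ _).preimage (continuous_pow 2)

theorem lift : LiftStmt := by
  intro hG hR κ L om h hL
  have hc : 0 < 2 * √κ := by have := Real.sqrt_pos.mpr h.pos; positivity
  classical
  set u : ℂ → ℝ := fun z => if z = 0 then L + Real.log (2 * √κ)
    else om (z ^ 2) + Real.log (2 * √κ * ‖z‖) with hu
  have hu1 : ∀ z, z ≠ 0 → u z = om (z ^ 2) + Real.log (2 * √κ * ‖z‖) := fun z hz => if_neg hz
  have hev : ∀ z, z ≠ 0 → u =ᶠ[𝓝 z] fun z => om (z ^ 2) + Real.log (2 * √κ * ‖z‖) := by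
    intro z hz
    filter_upwards [isOpen_ne.mem_nhds hz] with y hy
    exact hu1 y hy
  have hO : IsOpen (Dz \ {0}) := isOpen_Dz.sdiff isClosed_singleton
  have hom : ∀ z ∈ Dz, z ≠ 0 → ContDiffAt ℝ ∞ om (z ^ 2) := fun z hz h0 =>
    h.sm.contDiffAt (((isOpen_box _ _).sdiff isClosed_singleton).mem_nhds
      ⟨hz, pow_ne_zero 2 h0⟩)
  have hcd : ∀ z ∈ Dz, z ≠ 0 → ContDiffAt ℝ ∞ u z := fun z hz h0 =>
    (((hom z hz h0).comp z (contDiff_id.pow 2).contDiffAt).add
      (cd_log hc h0)).congr_of_eventuallyEq (hev z h0)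
  have two : (2 : WithTop ℕ∞) ≤ ∞ := by
    exact ENat.LEInfty.out
  have hlap : ∀ z ∈ Dz, z ≠ 0 →
      lap u z = 16 * κ * ‖z‖ ^ 4 * Real.exp (-2 * u z) - Real.exp (2 * u z) := by
    intro z hz h0
    have hn : 0 < ‖z‖ := norm_pos_iff.mpr h0
    have c1 : ContDiffAt ℝ 2 (fun y : ℂ => om (y ^ 2)) z :=
      ((hom z hz h0).of_le two).comp z (contDiff_id.pow 2).contDiffAt
    rw [lap_congr (hev z h0), lap_add c1 (cd_log hc h0), lap_sq ((hom z hz h0).of_le two),
      lap_log hc h0, h.eqw _ hz (pow_ne_zero 2 h0), hu1 z h0]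
    have e1 : Real.exp (2 * (om (z ^ 2) + Real.log (2 * √κ * ‖z‖))) =
        Real.exp (2 * om (z ^ 2)) * (4 * κ * ‖z‖ ^ 2) := by
      rw [mul_add, Real.exp_add, two_mul (Real.log _), Real.exp_add, Real.exp_log (by positivity)]
      have := Real.mul_self_sqrt h.pos.le
      congr 1
      linear_combination 4 * ‖z‖ ^ 2 * this
    have e2 : Real.exp (-2 * (om (z ^ 2) + Real.log (2 * √κ * ‖z‖))) =
        Real.exp (-2 * om (z ^ 2)) / (4 * κ * ‖z‖ ^ 2) := by
      rw [neg_mul, Real.exp_neg, e1, neg_mul, Real.exp_neg, mul_inv, div_eq_mul_inv]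
    rw [e1, e2]
    have := h.pos
    field_simp
    ring
  have hcont : ContinuousOn u Dz := by
    intro z hz
    by_cases h0 : z = 0
    · subst h0
      refine ContinuousAt.continuousWithinAt ?_
      rw [← continuousWithinAt_compl_self]
      have t1 : Tendsto (fun z : ℂ => z ^ 2) (𝓝[≠] 0) (𝓝[≠] 0) := by
        refine tendsto_nhdsWithin_iff.mpr ⟨?_, ?_⟩
        · have := ((continuous_pow 2).tendsto (0 : ℂ)).mono_left
            (nhdsWithin_le_nhds (s := {0}ᶜ))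
          simpa using this
        · filter_upwards [self_mem_nhdsWithin] with y hy
          exact pow_ne_zero 2 hy
      have t2 := (hL.comp t1).add_const (Real.log (2 * √κ))
      have e0 : u 0 = L + Real.log (2 * √κ) := if_pos rfl
      unfold ContinuousWithinAt
      rw [e0]
      refine t2.congr' ?_
      filter_upwards [self_mem_nhdsWithin] with y hy
      have hy' : y ≠ 0 := hy
      rw [hu1 y hy', Real.log_mul hc.ne' (norm_ne_zero_iff.mpr hy')]
      simp only [Function.comp_def, norm_pow, Real.log_pow]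
      push_cast
      ring
    · exact (hcd z hz h0).continuousAt.continuousWithinAt
  have hF : ContDiff ℝ ∞ fun q : ℂ × ℝ =>
      16 * κ * (‖q.1‖ ^ 2) ^ 2 * Real.exp (-2 * q.2) - Real.exp (2 * q.2) :=
    ((contDiff_const.mul ((contDiff_fst.norm_sq ℝ).pow 2)).mul
      (contDiff_const.mul contDiff_snd).exp).sub (contDiff_const.mul contDiff_snd).exp
  obtain ⟨r1, r2⟩ := hR Dz 0 u _ isOpen_Dz hcont hF.contDiffOn (by
    intro ψ hψ
    rw [hG _ u ψ hO (fun z hz => ((hcd z hz.1 hz.2).of_le two).contDiffWithinAt) hψ]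
    refine integral_congr_ae (Eventually.of_forall fun z => ?_)
    by_cases hz : z ∈ Dz \ {0}
    · simp only
      rw [hlap z hz.1 hz.2]
      ring
    · have : ψ z = 0 := image_eq_zero_of_notMem_tsupport fun h' => hz (hψ.2.2 h')
      simp only [this, mul_zero])
  refine ⟨u, r1, fun z _ h0 => hu1 z h0, fun z hz => ?_⟩
  rw [r2 z hz]
  ring

end Pool.Agent.MP_6b3e96_gt.H6
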